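import Pool.Agent.FGT.Stmts

/-!
Squad FGT, row ERG: mean ergodic theorem, almost everywhere convergence along a subsequence.
-/

namespace Pool.Agent.FGT.H29

open Filter Topology Pool.Agent.H22.CIG Pool.Agent.H67.CIP Pool.Agent.H50.CIG MeasureTheory

universe u v

set_option linter.unusedSectionVars false

section One

variable {X : Type v} [MeasurableSpace X] (T : Equiv.Perm X) (μ : Measure X)
    [IsProbabilityMeasure μ] (hT : MeasurePreserving (T : X → X) μ μ)
    (hTs : Measurable (T.symm : X → X)) (B : Set X) (hB : MeasurableSet B)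

include hT hTs in
theorem perm_meas (j : ℤ) : Measurable fun x : X => (T ^ j : Equiv.Perm X) x := by
  induction j using Int.induction_on with
  | zero => exact measurable_id
  | succ n ih =>
    have h1 : (fun x : X => (T ^ ((n : ℤ) + 1) : Equiv.Perm X) x) =
        (fun x => (T ^ (n : ℤ) : Equiv.Perm X) x) ∘ T := by
      funext x
      rw [zpow_add, zpow_one]
      rfl
    rw [h1]
    exact ih.comp hT.measurable
  | pred n ih =>
    have h1 : (fun x : X => (T ^ (-(n : ℤ) - 1) : Equiv.Perm X) x) =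
        (fun x => (T ^ (-(n : ℤ)) : Equiv.Perm X) x) ∘ T.symm := by
      funext x
      rw [sub_eq_add_neg, zpow_add, zpow_neg_one]
      rfl
    rw [h1]
    exact ih.comp hTs

/-- the two-sided average -/
noncomputable def FF (M : ℕ) (x : X) : ℝ := av (fun j => ind B ((T ^ j : Equiv.Perm X) x)) M

include hB in
theorem ind_meas : Measurable (ind B : X → ℝ) := measurable_const.indicator hB

include hT hTs hB in
theorem FF_meas (M : ℕ) : Measurable (FF T B M) := by
  unfold FF av
  refine Measurable.div_const ?_ _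
  refine Finset.measurable_sum _ fun j _ => ?_
  exact (ind_meas B hB).comp (perm_meas T μ hT hTs j)

include hT hTs hB in
theorem FF_memLp (M : ℕ) : MemLp (FF T B M) 2 μ := by
  refine MemLp.of_bound (FF_meas T μ hT hTs B hB M).aestronglyMeasurable 1
    (Eventually.of_forall fun x => ?_)
  rw [Real.norm_eq_abs]
  refine av_abs_le (fun j => ?_) M
  rw [abs_of_nonneg (ind_nonneg _ _)]
  exact ind_le_one _ _

include hB in
theorem ind_memLp : MemLp (ind B : X → ℝ) 2 μ := by
  refine MemLp.of_bound (ind_meas B hB).aestronglyMeasurable 1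
    (Eventually.of_forall fun x => ?_)
  rw [Real.norm_eq_abs, abs_of_nonneg (ind_nonneg _ _)]
  exact ind_le_one _ _

theorem FF_iter (M : ℕ) (x : X) : FF T B M (T^[M] x) =
    (((2 * M + 1 : ℕ) : ℝ))⁻¹ * ∑ l ∈ Finset.range (2 * M + 1), ind B (T^[l] x) := by
  unfold FF av
  rw [div_eq_inv_mul]
  congr 1
  · push_cast
    rfl
  · refine Finset.sum_bij' (fun j _ => (j + M).toNat) (fun l _ => (l : ℤ) - M) ?_ ?_ ?_ ?_ ?_
    · intro j hj
      rw [Finset.mem_Icc] at hj
      rw [Finset.mem_range]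
      omega
    · intro l hl
      rw [Finset.mem_range] at hl
      rw [Finset.mem_Icc]
      omega
    · intro j hj
      rw [Finset.mem_Icc] at hj
      show (((j + M).toNat : ℕ) : ℤ) - M = j
      omega
    · intro l hl
      show ((l : ℤ) - M + M).toNat = l
      omega
    · intro j hj
      rw [Finset.mem_Icc] at hj
      have h1 : ∀ (n : ℕ) (y : X), T^[n] y = (T ^ (n : ℤ) : Equiv.Perm X) y := by
        intro n y
        rw [zpow_natCast, Equiv.Perm.iterate_eq_pow]
      rw [h1, h1, ← Equiv.Perm.mul_apply, ← zpow_add]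
      congr 3
      omega

include hB hT in
theorem sum_toLp (N : ℕ) (h : MemLp (fun x => ∑ l ∈ Finset.range N, ind B (T^[l] x)) 2 μ) :
    ∑ l ∈ Finset.range N, (Lp.compMeasurePreserving T hT)^[l] ((ind_memLp μ B hB).toLp _) =
      h.toLp _ := by
  induction N with
  | zero =>
    simp only [Finset.range_zero, Finset.sum_empty]
    symm
    exact MemLp.toLp_zero _
  | succ n ih =>
    have h1 : MemLp (fun x => ∑ l ∈ Finset.range n, ind B (T^[l] x)) 2 μ := by
      refine memLp_finsetSum _ fun l _ => ?_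
      exact (ind_memLp μ B hB).comp_measurePreserving (hT.iterate l)
    have h2 : MemLp (fun x => ind B (T^[n] x)) 2 μ :=
      (ind_memLp μ B hB).comp_measurePreserving (hT.iterate n)
    rw [Finset.sum_range_succ, ih h1, Lp.compMeasurePreserving_iterate,
      Lp.toLp_compMeasurePreserving]
    refine (MemLp.toLp_add h1 h2).symm.trans ?_
    apply MemLp.toLp_congr
    filter_upwards with x
    rw [Finset.sum_range_succ]
    rfl

include hT hTs hB in
/-- convergence in measure of the two-sided averages -/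
theorem erg_one : ∃ q : X → ℝ, Measurable q ∧ Integrable q μ ∧
    TendstoInMeasure μ (FF T B) atTop q ∧ ∫ x, q x ∂μ = (μ B).toReal := by
  classical
  let U : Lp ℝ 2 μ →ₗᵢ[ℝ] Lp ℝ 2 μ := Lp.compMeasurePreservingₗᵢ ℝ T hT
  let Uc : Lp ℝ 2 μ →L[ℝ] Lp ℝ 2 μ := U.toContinuousLinearMap
  have hUc : ‖Uc‖ ≤ 1 := LinearIsometry.norm_toContinuousLinearMap_le U
  have hUU : (Uc : Lp ℝ 2 μ → Lp ℝ 2 μ) = Lp.compMeasurePreserving T hT := rfl
  set G : Lp ℝ 2 μ := (ind_memLp μ B hB).toLp _ with hG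
  set S : Submodule ℝ (Lp ℝ 2 μ) := Uc.eqLocus (1 : Lp ℝ 2 μ →L[ℝ] Lp ℝ 2 μ) with hS
  have herg := Uc.tendsto_birkhoffAverage_orthogonalProjection hUc G
  set PG : Lp ℝ 2 μ := ((S.orthogonalProjectionOnto G : S) : Lp ℝ 2 μ) with hPG
  have herg' : Tendsto (fun N : ℕ => birkhoffAverage ℝ Uc _root_.id N G) atTop (𝓝 PG) := herg
  have hfix : Uc PG = PG := (S.orthogonalProjectionOnto G).2
  have hfixM : ∀ M : ℕ, (Uc : Lp ℝ 2 μ → Lp ℝ 2 μ)^[M] PG = PG := fun M =>
    Function.iterate_fixed hfix M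
  have hbA : ∀ M : ℕ, birkhoffAverage ℝ Uc _root_.id (2 * M + 1) G =
      (Uc : Lp ℝ 2 μ → Lp ℝ 2 μ)^[M] ((FF_memLp T μ hT hTs B hB M).toLp _) := by
    intro M
    have h1 : MemLp (fun x => ∑ l ∈ Finset.range (2 * M + 1), ind B (T^[l] x)) 2 μ := by
      refine memLp_finsetSum _ fun l _ => ?_
      exact (ind_memLp μ B hB).comp_measurePreserving (hT.iterate l)
    unfold birkhoffAverage birkhoffSum
    rw [hUU]
    simp only [_root_.id]
    rw [sum_toLp T μ hT B hB (2 * M + 1) h1, Lp.compMeasurePreserving_iterate,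
      Lp.toLp_compMeasurePreserving]
    refine (MemLp.toLp_const_smul _ h1).symm.trans ?_
    apply MemLp.toLp_congr
    filter_upwards with x
    show ((2 * M + 1 : ℕ) : ℝ)⁻¹ * _ = FF T B M (T^[M] x)
    rw [FF_iter]
  have hconv : Tendsto (fun M : ℕ => (FF_memLp T μ hT hTs B hB M).toLp (FF T B M)) atTop
      (𝓝 PG) := by
    rw [tendsto_iff_norm_sub_tendsto_zero]
    have h1 : Tendsto (fun M : ℕ => birkhoffAverage ℝ Uc _root_.id (2 * M + 1) G) atTop
        (𝓝 PG) := by
      refine herg'.comp ?_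
      refine tendsto_atTop_mono (fun M => ?_) tendsto_id
      show M ≤ 2 * M + 1
      omega
    rw [tendsto_iff_norm_sub_tendsto_zero] at h1
    refine h1.congr fun M => ?_
    rw [hbA M]
    have h2 : ∀ (M : ℕ) (a b : Lp ℝ 2 μ), ‖(Uc : Lp ℝ 2 μ → Lp ℝ 2 μ)^[M] a -
        (Uc : Lp ℝ 2 μ → Lp ℝ 2 μ)^[M] b‖ = ‖a - b‖ := by
      intro M
      induction M with
      | zero => intro a b; rfl
      | succ n ih =>
        intro a b
        rw [Function.iterate_succ_apply, Function.iterate_succ_apply, ih, ← map_sub]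
        exact U.norm_map _
    have h3 := h2 M ((FF_memLp T μ hT hTs B hB M).toLp (FF T B M)) PG
    rw [hfixM M] at h3
    exact h3
  refine ⟨PG, (Lp.stronglyMeasurable PG).measurable,
    (Lp.memLp PG).integrable one_le_two, ?_, ?_⟩
  · exact (tendstoInMeasure_of_tendsto_Lp hconv).congr_left fun M =>
      MemLp.coeFn_toLp _
  · set E1 : Lp ℝ 2 μ := indicatorConstLp 2 MeasurableSet.univ (measure_ne_top μ _) (1 : ℝ)
      with hE1
    have h1 := L2.inner_indicatorConstLp_one (𝕜 := ℝ) MeasurableSet.univ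
      (measure_ne_top μ Set.univ) PG
    have h2 := L2.inner_indicatorConstLp_one (𝕜 := ℝ) MeasurableSet.univ
      (measure_ne_top μ Set.univ) G
    have hE1S : E1 ∈ S := by
      show Uc E1 = E1
      rw [hUU, hE1]
      unfold indicatorConstLp
      rw [Lp.toLp_compMeasurePreserving]
      apply MemLp.toLp_congr
      filter_upwards with x
      simp
    have h3 : inner ℝ E1 PG = inner ℝ E1 G := by
      have e1 : PG = S.starProjection G := rfl
      rw [e1, ← Submodule.inner_starProjection_left_eq_right,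
        Submodule.starProjection_eq_self_iff.2 hE1S]
    rw [Measure.restrict_univ] at h1 h2
    rw [← h1, ← hE1, h3, h2]
    have h4 : ∫ x, G x ∂μ = ∫ x, ind B x ∂μ := by
      apply integral_congr_ae
      exact MemLp.coeFn_toLp _
    rw [h4]
    unfold ind
    rw [integral_indicator hB]
    simp [Measure.real]

end One

theorem erg : ErgStmt.{v} := by
  intro X _ T μ _ hT hTs B hB M₀ hM₀
  choose q hq1 hq2 hq3 hq4 using fun i => erg_one T μ hT hTs (B i) (hB i)
  -- the subsequence
  have hP : ∀ k : ℕ, ∀ᶠ m in atTop, ∀ i ∈ Finset.range (k + 1),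
      μ {x | ENNReal.ofReal ((1 / 2 : ℝ) ^ k) ≤ edist (FF T (B i) (M₀ m) x) (q i x)} ≤
        ENNReal.ofReal ((1 / 2 : ℝ) ^ k / (k + 1)) := by
    intro k
    rw [Filter.eventually_all_finset]
    intro i _
    have h1 := (hq3 i) (ENNReal.ofReal ((1 / 2 : ℝ) ^ k)) (by
      rw [ENNReal.ofReal_pos]; positivity)
    have h2 := h1.comp hM₀.tendsto_atTop
    refine (h2.eventually_le_const ?_)
    rw [ENNReal.ofReal_pos]
    positivity
  obtain ⟨φ, hφ, hφP⟩ := extraction_forall_of_eventually' (P := fun k m =>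
    ∀ i ∈ Finset.range (k + 1),
      μ {x | ENNReal.ofReal ((1 / 2 : ℝ) ^ k) ≤ edist (FF T (B i) (M₀ m) x) (q i x)} ≤
        ENNReal.ofReal ((1 / 2 : ℝ) ^ k / (k + 1))) (fun k => eventually_atTop.1 (hP k))
  -- Borel - Cantelli
  let s : ℕ → Set X := fun k => ⋃ i ∈ Finset.range (k + 1),
    {x | ENNReal.ofReal ((1 / 2 : ℝ) ^ k) ≤ edist (FF T (B i) (M₀ (φ k)) x) (q i x)}
  have hs : ∀ k, μ (s k) ≤ ENNReal.ofReal ((1 / 2 : ℝ) ^ k) := by
    intro k
    calc μ (s k) ≤ ∑ i ∈ Finset.range (k + 1),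
          μ {x | ENNReal.ofReal ((1 / 2 : ℝ) ^ k) ≤ edist (FF T (B i) (M₀ (φ k)) x) (q i x)} :=
          measure_biUnion_finset_le _ _
      _ ≤ ∑ _i ∈ Finset.range (k + 1), ENNReal.ofReal ((1 / 2 : ℝ) ^ k / (k + 1)) :=
          Finset.sum_le_sum fun i hi => hφP k i hi
      _ = ENNReal.ofReal ((1 / 2 : ℝ) ^ k) := by
          rw [Finset.sum_const, Finset.card_range, nsmul_eq_mul, ← ENNReal.ofReal_natCast,
            ← ENNReal.ofReal_mul (by positivity)]
          congr 1
          push_cast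
          field_simp
  have hsum : (∑' k, μ (s k)) ≠ ⊤ := by
    have h1 : Summable fun k : ℕ => (1 / 2 : ℝ) ^ k := summable_geometric_two
    refine ne_top_of_le_ne_top ?_ (ENNReal.tsum_le_tsum hs)
    exact h1.tsum_ofReal_ne_top
  have hae := ae_eventually_notMem hsum
  refine ⟨φ, hφ, fun i => ⟨q i, hq1 i, hq2 i, ?_, hq4 i⟩⟩
  filter_upwards [hae] with x hx
  rw [Metric.tendsto_atTop]
  intro ε hε
  have h1 : Tendsto (fun k : ℕ => (1 / 2 : ℝ) ^ k) atTop (𝓝 0) :=
    tendsto_pow_atTop_nhds_zero_of_lt_one (by norm_num) (by norm_num)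
  have h2 := (h1.eventually_lt_const hε).and (hx.and (eventually_ge_atTop i))
  obtain ⟨N, hN⟩ := eventually_atTop.1 h2
  refine ⟨N, fun k hk => ?_⟩
  obtain ⟨h3, h4, h5⟩ := hN k hk
  have h6 : edist (FF T (B i) (M₀ (φ k)) x) (q i x) < ENNReal.ofReal ((1 / 2 : ℝ) ^ k) := by
    by_contra hcon
    apply h4
    refine Set.mem_iUnion₂.2 ⟨i, Finset.mem_range.2 (by omega), not_lt.1 hcon⟩
  rw [edist_dist, ENNReal.ofReal_lt_ofReal_iff (by positivity)] at h6
  exact h6.trans h3

end Pool.Agent.FGT.H29
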