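import Pool.Agent.FGT.Stmts

/-!
Squad FGT, row MPL: the group preserves every invariant measure of the homeomorphism.
-/

namespace Pool.Agent.FGT.H29

open Filter Topology Pool.Agent.H22.CIG Pool.Agent.H67.CIP Pool.Agent.H50.CIG MeasureTheory

universe u v

theorem mp_zpow {X : Type v} [TopologicalSpace X] [MeasurableSpace X] (T : X ≃ₜ X)
    (μ : Measure X) (hT : MeasurePreserving (T : X → X) μ μ) (hTs : Measurable (T.symm : X → X))
    (i : ℤ) : MeasurePreserving (fun x : X => (T ^ i) x) μ μ := by
  let e : X ≃ᵐ X :=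
    { toEquiv := T.toEquiv
      measurable_toFun := hT.measurable
      measurable_invFun := hTs }
  have he : MeasurePreserving e μ μ := hT
  have hs : MeasurePreserving (T.symm : X → X) μ μ := MeasurePreserving.symm e he
  induction i using Int.induction_on with
  | zero => exact MeasurePreserving.id μ
  | succ n ih =>
    have h1 : (fun x : X => (T ^ ((n : ℤ) + 1)) x) = (fun x => (T ^ (n : ℤ)) x) ∘ T := by
      funext x
      rw [zpow_add_apply, zpow_one]
      rfl
    rw [h1]
    exact ih.comp hT
  | pred n ih =>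
    have h1 : (fun x : X => (T ^ (-(n : ℤ) - 1)) x) = (fun x => (T ^ (-(n : ℤ))) x) ∘ T.symm := by
      funext x
      rw [sub_eq_add_neg, zpow_add_apply, zpow_neg_one]
      rfl
    rw [h1]
    exact ih.comp hs

theorem mpl : MplStmt.{u, v} := by
  intro X _ _ _ T L _ _ p μ _ hcl hT hTs g
  have hz := mp_zpow T μ hT hTs
  have hA : ∀ (h : L) (i : ℤ), MeasurableSet {x : X | p.n h x = i} := fun h i =>
    hcl _ (IsClopen.preimage (isClopen_discrete {i}) (p.cont h))
  have hpre : ∀ B : Set X, (fun x : X => g • x) ⁻¹' B =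
      ⋃ i : ℤ, {x : X | p.n g x = i} ∩ (fun x => (T ^ i) x) ⁻¹' B := by
    intro B
    ext x
    simp only [Set.mem_preimage, Set.mem_iUnion, Set.mem_inter_iff, Set.mem_ofPred_eq]
    constructor
    · intro h
      refine ⟨p.n g x, rfl, ?_⟩
      rw [← p.eq]
      exact h
    · rintro ⟨i, hi, h⟩
      rw [p.eq, hi]
      exact h
  have hmeas : Measurable (fun x : X => g • x) := by
    intro B hB
    rw [hpre B]
    exact MeasurableSet.iUnion fun i => (hA g i).inter ((hz i).measurable hB)
  refine ⟨hmeas, ?_⟩
  ext B hB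
  rw [Measure.map_apply hmeas hB, hpre B, measure_iUnion]
  · have h1 : ∀ i : ℤ, μ ({x : X | p.n g x = i} ∩ (fun x => (T ^ i) x) ⁻¹' B) =
        μ ({y : X | p.n g⁻¹ y = -i} ∩ B) := by
      intro i
      rw [← (hz i).measure_preimage ((hA g⁻¹ (-i)).inter hB).nullMeasurableSet]
      congr 1
      ext x
      simp only [Set.mem_preimage, Set.mem_inter_iff, Set.mem_ofPred_eq]
      refine and_congr_left fun _ => ?_
      constructor
      · intro h
        have h2 := p.inv g x
        rw [p.eq g x, h] at h2
        exact h2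
      · intro h
        have h2 : g⁻¹ • ((T ^ i) x) = x := by
          rw [p.eq, h, ← zpow_add_apply, neg_add_cancel, zpow_zero]
          rfl
        have h3 : (T ^ i) x = g • x := by
          rw [← h2, smul_inv_smul, h2]
        apply p.inj (x := x)
        rw [← p.eq, h3]
    simp only [h1]
    rw [← measure_iUnion]
    · congr 1
      ext y
      simp only [Set.mem_iUnion, Set.mem_inter_iff, Set.mem_ofPred_eq]
      constructor
      · rintro ⟨i, -, h⟩
        exact h
      · intro h
        exact ⟨-(p.n g⁻¹ y), by rw [neg_neg], h⟩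
    · intro i j hij
      refine Set.disjoint_left.mpr fun y h2 h3 => hij ?_
      have h4 : p.n g⁻¹ y = -i := h2.1
      have h5 : p.n g⁻¹ y = -j := h3.1
      omega
    · intro i
      exact (hA g⁻¹ (-i)).inter hB
  · intro i j hij
    refine Set.disjoint_left.mpr fun y h2 h3 => hij ?_
    have h4 : p.n g y = i := h2.1
    have h5 : p.n g y = j := h3.1
    rw [← h4, ← h5]
  · intro i
    exact (hA g i).inter ((hz i).measurable hB)

end Pool.Agent.FGT.H29
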